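import Mathlib
import Pool.Agent.Q151.OG.Stm

/-!
Project OG: the variable `β` only records the degree (BET).
-/

set_option autoImplicit false

namespace Pool.Agent.Q277.OG

open MvPolynomial
open Q151.OG

/-- the substitution `x ↦ β x` -/
noncomputable def Dm (σ : Type) : MvPolynomial σ ℤ →ₐ[ℤ] MvPolynomial σ (LaurentPolynomial ℤ) :=
  aeval fun i => C (LaurentPolynomial.T 1) * X i

lemma dm_monomial (σ : Type) (s : σ →₀ ℕ) (a : ℤ) :
    Dm σ (monomial s a) = monomial s (a • (LaurentPolynomial.T (s.degree : ℤ))) := by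
  unfold Dm
  rw [aeval_monomial, monomial_eq]
  have h1 : (s.prod fun i k => ((C (LaurentPolynomial.T 1) * X i) ^ k :
      MvPolynomial σ (LaurentPolynomial ℤ))) =
      C (LaurentPolynomial.T (s.degree : ℤ)) * s.prod fun i k => X i ^ k := by
    unfold Finsupp.prod
    simp only [mul_pow]
    rw [Finset.prod_mul_distrib]
    congr 1
    rw [Finset.prod_pow_eq_pow_sum, ← map_pow, LaurentPolynomial.T_pow]
    congr 2
    rw [mul_one]
    rfl
  rw [h1, ← mul_assoc]
  congr 1
  rw [zsmul_eq_mul, map_mul]
  congr 1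

lemma coeff_dm (σ : Type) (g : MvPolynomial σ ℤ) (γ : σ →₀ ℕ) :
    coeff γ (Dm σ g) = coeff γ g • (LaurentPolynomial.T (γ.degree : ℤ) : LaurentPolynomial ℤ) := by
  classical
  induction g using MvPolynomial.induction_on' with
  | monomial u a =>
    rw [dm_monomial, coeff_monomial, coeff_monomial]
    split_ifs with h
    · rw [h]
    · rw [zero_smul]
  | add p q hp hq => rw [map_add, coeff_add, coeff_add, hp, hq, add_smul]

lemma rename_dm (N : ℕ) (g : MvPolynomial (Fin N) ℤ) :
    rename Fin.val (Dm (Fin N) g) = Dm ℕ (rename Fin.val g) := by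
  induction g using MvPolynomial.induction_on with
  | C a =>
    unfold Dm
    simp
  | add p q hp hq => rw [map_add, map_add, map_add, map_add, hp, hq]
  | mul_X p i hp =>
    rw [map_mul, map_mul, map_mul, map_mul, hp]
    congr 1
    unfold Dm
    simp

lemma subst_dm (N : ℕ) (K : MvPolynomial (Fin N) ℤ) :
    (aeval (fun i => 1 + C (LaurentPolynomial.T 1) * X i :
      Fin N → MvPolynomial (Fin N) (LaurentPolynomial ℤ)) K) =
    Dm (Fin N) (aeval (fun i => 1 + X i : Fin N → MvPolynomial (Fin N) ℤ) K) := by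
  induction K using MvPolynomial.induction_on with
  | C a =>
    unfold Dm
    simp
  | add p q hp hq => rw [map_add, map_add, map_add, hp, hq]
  | mul_X p i hp =>
    rw [map_mul, map_mul, map_mul, hp]
    congr 1
    unfold Dm
    simp

theorem bet : S_BET := by
  intro N K γ
  rw [subst_dm, rename_dm, coeff_dm]

end Pool.Agent.Q277.OG
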