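import Mathlib
import Pool.Agent.Q151.OG.Stm

/-!
Project OG: the codimension (CDA).
-/

set_option autoImplicit false

namespace Pool.Agent.Q277.OG

open MvPolynomial
open Q151.OG

lemma zero_mem (N : ℕ) (z : Equiv.Perm (Fin N)) : (fun _ => 0 : Sym2 (Fin N) → ℂ) ∈ MX z := by
  intro i j
  have : corner (mat (fun _ => 0 : Sym2 (Fin N) → ℂ)) i j = 0 := by
    ext a b
    rfl
  rw [this, Matrix.rank_zero]
  exact Nat.zero_le _

lemma nontriv (N : ℕ) (z : Equiv.Perm (Fin N)) : Nontrivial (CRing (MX z)) := by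
  apply Ideal.Quotient.nontrivial_iff.2
  intro h
  have h1 : (1 : MvPolynomial (Sym2 (Fin N)) ℂ) ∈ vanishingIdeal ℂ (MX z) := by
    rw [h]
    trivial
  have h2 := (mem_vanishingIdeal_iff.1 h1) _ (zero_mem N z)
  simp at h2

lemma dim_poly (N : ℕ) : ringKrullDim (MvPolynomial (Sym2 (Fin N)) ℂ) =
    ((N * (N + 1) / 2 : ℕ) : WithBot ℕ∞) := by
  rw [MvPolynomial.ringKrullDim_of_isNoetherianRing, ringKrullDim_eq_zero_of_field, zero_add,
    Nat.card_eq_fintype_card, Sym2.card, Fintype.card_fin, Nat.choose_two_right,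
    Nat.add_sub_cancel, mul_comm]

theorem cda : S_CDA := by
  intro N z
  have := nontriv N z
  have h1 : ringKrullDim (CRing (MX z)) ≤ ((N * (N + 1) / 2 : ℕ) : WithBot ℕ∞) := by
    rw [← dim_poly N]
    exact ringKrullDim_quotient_le _
  have h2 : 0 ≤ ringKrullDim (CRing (MX z)) := ringKrullDim_nonneg_of_nontrivial
  unfold codim
  obtain ⟨d, hd⟩ : ∃ d : ℕ, ringKrullDim (CRing (MX z)) = (d : WithBot ℕ∞) := by
    generalize hD : ringKrullDim (CRing (MX z)) = D at h1 h2
    induction D with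
    | bot => exact absurd h2 (by simp)
    | coe D =>
      have h3 : D ≤ ((N * (N + 1) / 2 : ℕ) : ℕ∞) := by exact_mod_cast h1
      have h4 : D ≠ ⊤ := fun h => by
        rw [h] at h3
        exact absurd h3 (by simp)
      exact ⟨D.toNat, by
        rw [← ENat.natCast_toNat h4]
        simp⟩
  rw [hd] at h1 ⊢
  have h3 : d ≤ N * (N + 1) / 2 := by exact_mod_cast h1
  have h4 : ((WithBot.unbotD 0 (d : WithBot ℕ∞)).toNat) = d := by
    have : ((d : WithBot ℕ∞)) = (((d : ℕ∞)) : WithBot ℕ∞) := rfl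
    rw [this, WithBot.unbotD_coe]
    simp
  rw [h4]
  exact_mod_cast congrArg (fun n : ℕ => (n : WithBot ℕ∞)) (Nat.sub_add_cancel h3)

end Pool.Agent.Q277.OG
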