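import Mathlib
import Pool.Agent.Q151.OG.Stm

/-!
Project OG: products over unordered pairs, and `1 ^ (m + 1) × z = 1 × (1 ^ m × z)` (PRD, SIG).
-/

set_option autoImplicit false

namespace Pool.Agent.Q277.OG

open Q151.OG

/-- the three kinds of unordered pairs -/
def kinds (N : ℕ) : (Unit ⊕ Fin N) ⊕ Sym2 (Fin N) → Sym2 (Fin (N + 1)) :=
  Sum.elim (Sum.elim (fun _ => s(0, 0)) (fun j => s(0, j.succ))) (fun s => s.map Fin.succ)

lemma zero_notMem {N : ℕ} (s : Sym2 (Fin N)) : (0 : Fin (N + 1)) ∉ s.map Fin.succ := by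
  rw [Sym2.mem_map]
  rintro ⟨a, -, ha⟩
  exact Fin.succ_ne_zero a ha

lemma kinds_bij (N : ℕ) : Function.Bijective (kinds N) := by
  constructor
  · rintro ((_ | j) | s) ((_ | k) | t) h
    · rfl
    · exfalso
      have h' : s(0, 0) = s(0, k.succ) := h
      rw [Sym2.eq_iff] at h'
      rcases h' with ⟨-, h⟩ | ⟨h, -⟩
      · exact Fin.succ_ne_zero k h.symm
      · exact Fin.succ_ne_zero k h.symm
    · exfalso
      have h' : s(0, 0) = t.map Fin.succ := h
      apply zero_notMem t
      rw [← h']
      exact Sym2.mem_mk_left _ _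
    · exfalso
      have h' : s(0, j.succ) = s(0, 0) := h
      rw [Sym2.eq_iff] at h'
      rcases h' with ⟨-, h⟩ | ⟨-, h⟩
      · exact Fin.succ_ne_zero j h
      · exact Fin.succ_ne_zero j h
    · have h' : s(0, j.succ) = s(0, k.succ) := h
      rw [Sym2.eq_iff] at h'
      rcases h' with ⟨-, h⟩ | ⟨h, -⟩
      · rw [Fin.succ_injective _ h]
      · exact absurd h.symm (Fin.succ_ne_zero k)
    · exfalso
      have h' : s(0, j.succ) = t.map Fin.succ := h
      apply zero_notMem t
      rw [← h']
      exact Sym2.mem_mk_left _ _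
    · exfalso
      have h' : s.map Fin.succ = s(0, 0) := h
      apply zero_notMem s
      rw [h']
      exact Sym2.mem_mk_left _ _
    · exfalso
      have h' : s.map Fin.succ = s(0, k.succ) := h
      apply zero_notMem s
      rw [h']
      exact Sym2.mem_mk_left _ _
    · have h' : s.map Fin.succ = t.map Fin.succ := h
      rw [Sym2.map.injective (Fin.succ_injective N) h']
  · intro s
    induction s using Sym2.ind with
    | _ i j =>
      induction i using Fin.cases with
      | zero =>
        induction j using Fin.cases with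
        | zero => exact ⟨Sum.inl (Sum.inl ()), rfl⟩
        | succ j => exact ⟨Sum.inl (Sum.inr j), rfl⟩
      | succ i =>
        induction j using Fin.cases with
        | zero => exact ⟨Sum.inl (Sum.inr i), Sym2.eq_swap⟩
        | succ j => exact ⟨Sum.inr s(i, j), rfl⟩

theorem prd : S_PRD := by
  classical
  intro M _ N f
  rw [← Fintype.prod_equiv (Equiv.ofBijective (kinds N) (kinds_bij N)) (fun t => f (kinds N t)) f
    (fun t => rfl), Fintype.prod_sum_type, Fintype.prod_sum_type]
  simp [kinds]

lemma sigma_eq (N N' : ℕ) (h : N = N') (f : Equiv.Perm (Fin N)) (g : Equiv.Perm (Fin N'))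
    (hfg : ∀ i : Fin N, (g (Fin.cast h i)).1 = (f i).1) :
    (⟨N, f⟩ : Σ N : ℕ, Equiv.Perm (Fin N)) = ⟨N', g⟩ := by
  subst h
  have : f = g := by
    ext i
    exact (hfg i).symm
  rw [this]

lemma ones_left (n m : ℕ) (z : Equiv.Perm (Fin n)) (a : Fin m) :
    ones m z (Fin.castAdd n a) = Fin.castAdd n a := by
  unfold ones
  rw [Equiv.permCongr_apply, finSumFinEquiv_symm_apply_castAdd]
  rfl

lemma ones_right (n m : ℕ) (z : Equiv.Perm (Fin n)) (b : Fin n) :
    ones m z (Fin.natAdd m b) = Fin.natAdd m (z b) := by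
  unfold ones
  rw [Equiv.permCongr_apply, finSumFinEquiv_symm_apply_natAdd]
  rfl

lemma ext_zero (N : ℕ) (z : Equiv.Perm (Fin N)) : ext z 0 = 0 := by
  unfold ext
  rw [Equiv.Perm.decomposeFin_symm_apply_zero]

lemma ext_succ (N : ℕ) (z : Equiv.Perm (Fin N)) (i : Fin N) : ext z i.succ = (z i).succ := by
  unfold ext
  rw [Equiv.Perm.decomposeFin_symm_apply_succ, Equiv.swap_self]
  rfl

theorem sig : S_SIG := by
  intro n m z
  apply sigma_eq (m + 1 + n) (m + n + 1) (by omega)
  intro i
  induction i using Fin.addCases with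
  | left a =>
    rw [ones_left]
    induction a using Fin.cases with
    | zero =>
      have e : Fin.cast (by omega : m + 1 + n = m + n + 1) (Fin.castAdd n (0 : Fin (m + 1))) = 0 := by
        ext
        rfl
      rw [e, ext_zero]
      rfl
    | succ a =>
      have e : Fin.cast (by omega : m + 1 + n = m + n + 1) (Fin.castAdd n a.succ) =
          (Fin.castAdd n a).succ := by
        ext
        rfl
      rw [e, ext_succ, ones_left]
      rfl
  | right b =>
    rw [ones_right]
    have e : Fin.cast (by omega : m + 1 + n = m + n + 1) (Fin.natAdd (m + 1) b) =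
        (Fin.natAdd m b).succ := by
      ext
      simp only [Fin.val_cast, Fin.val_natAdd, Fin.val_succ]
      omega
    rw [e, ext_succ, ones_right]
    simp only [Fin.val_natAdd, Fin.val_succ]
    omega

end Pool.Agent.Q277.OG
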