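import Mathlib
import Pool.Agent.Q151.OG.Stm

/-!
Project OG: stability of the rank conditions under permutations of the first indices (SYA).
-/

set_option autoImplicit false

namespace Pool.Agent.Q277.OG

open Q151.OG

/-- a permutation which fixes all indices `≥ m` maps `{a < i}` to itself, if `m ≤ i` -/
lemma perm_lt {N m i : ℕ} (σ : Equiv.Perm (Fin N)) (hσ : ∀ i : Fin N, m ≤ i.1 → σ i = i)
    (hmi : m ≤ i) (a : Fin N) (ha : a.1 < i) : (σ a).1 < i := by
  by_contra h
  push Not at h
  have h1 : σ (σ a) = σ a := hσ (σ a) (by omega)
  have h2 : σ a = a := σ.injective h1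
  rw [h2] at h
  omega

theorem sya : S_SYA := by
  classical
  intro N m z hz σ hσ x hx i j
  by_cases hc : m ≤ i ∧ m ≤ j
  · obtain ⟨hi, hj⟩ := hc
    have e : corner (mat (fun s => x (s.map σ))) i j = (corner (mat x) i j).submatrix
        (fun a => ⟨σ a.1, perm_lt σ hσ hi a.1 a.2⟩) (fun b => ⟨σ b.1, perm_lt σ hσ hj b.1 b.2⟩) := by
      ext a b
      rfl
    rw [e]
    exact (Matrix.rank_submatrix_le _ _ _).trans (hx i j)
  · have hc' : i < m ∨ j < m := by
      by_contra h
      push Not at h
      exact hc h
    rcases le_or_gt i j with hij | hij
    · have him : i < m := by omega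
      have hone : corner (z.permMatrix ℂ) i j * (corner (z.permMatrix ℂ) i j).transpose = 1 := by
        ext a b
        rw [Matrix.mul_apply]
        have h1 : ∀ c : {b : Fin N // b.1 < j},
            corner (z.permMatrix ℂ) i j a c * (corner (z.permMatrix ℂ) i j).transpose c b =
              (if c.1 = a.1 then (if a = b then 1 else 0) else 0) := by
          intro c
          rw [Matrix.transpose_apply]
          unfold corner
          rw [Matrix.submatrix_apply, Matrix.submatrix_apply, Equiv.Perm.permMatrix,
            PEquiv.toMatrix_apply, PEquiv.toMatrix_apply]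
          have ha : z a.1 = a.1 := hz a.1 (by have := a.2; omega)
          have hb : z b.1 = b.1 := hz b.1 (by have := b.2; omega)
          simp only [Equiv.toPEquiv_apply, Option.mem_def, Option.some.injEq, ha, hb]
          by_cases h2 : c.1 = a.1
          · rw [if_pos h2, if_pos h2.symm, one_mul, h2]
            by_cases h3 : a = b
            · rw [if_pos h3, if_pos (by rw [h3])]
            · rw [if_neg h3, if_neg]
              intro h4
              exact h3 (Subtype.ext h4.symm)
          · rw [if_neg h2, if_neg (fun h => h2 h.symm), zero_mul]
        rw [Finset.sum_congr rfl fun c _ => h1 c, Matrix.one_apply,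
          Finset.sum_eq_single (⟨a.1, lt_of_lt_of_le a.2 hij⟩ : {b : Fin N // b.1 < j})]
        · rw [if_pos rfl]
        · intro c _ hc
          rw [if_neg]
          intro h
          exact hc (Subtype.ext h)
        · intro h
          exact absurd (Finset.mem_univ _) h
      have h2 := Matrix.rank_mul_le_left (corner (z.permMatrix ℂ) i j)
        (corner (z.permMatrix ℂ) i j).transpose
      rw [hone, Matrix.rank_one] at h2
      exact (Matrix.rank_le_card_height _).trans h2
    · have hjm : j < m := by omega
      have hone : (corner (z.permMatrix ℂ) i j).transpose * corner (z.permMatrix ℂ) i j = 1 := by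
        ext a b
        rw [Matrix.mul_apply]
        have h1 : ∀ c : {b : Fin N // b.1 < i},
            (corner (z.permMatrix ℂ) i j).transpose a c * corner (z.permMatrix ℂ) i j c b =
              (if c.1 = a.1 then (if a = b then 1 else 0) else 0) := by
          intro c
          rw [Matrix.transpose_apply]
          unfold corner
          rw [Matrix.submatrix_apply, Matrix.submatrix_apply, Equiv.Perm.permMatrix,
            PEquiv.toMatrix_apply, PEquiv.toMatrix_apply]
          have ha : z a.1 = a.1 := hz a.1 (by have := a.2; omega)
          have hb : z b.1 = b.1 := hz b.1 (by have := b.2; omega)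
          have ha' : z c.1 = a.1 ↔ c.1 = a.1 :=
            ⟨fun h => z.injective (h.trans ha.symm), fun h => by rw [h, ha]⟩
          have hb' : z c.1 = b.1 ↔ c.1 = b.1 :=
            ⟨fun h => z.injective (h.trans hb.symm), fun h => by rw [h, hb]⟩
          simp only [Equiv.toPEquiv_apply, Option.mem_def, Option.some.injEq, ha', hb']
          by_cases h2 : c.1 = a.1
          · rw [if_pos h2, if_pos h2, one_mul, h2]
            by_cases h3 : a = b
            · rw [if_pos h3, if_pos (by rw [h3])]
            · rw [if_neg h3, if_neg]
              intro h4
              exact h3 (Subtype.ext h4)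
          · rw [if_neg h2, if_neg h2, zero_mul]
        rw [Finset.sum_congr rfl fun c _ => h1 c, Matrix.one_apply,
          Finset.sum_eq_single (⟨a.1, lt_trans a.2 hij⟩ : {b : Fin N // b.1 < i})]
        · rw [if_pos rfl]
        · intro c _ hc
          rw [if_neg]
          intro h
          exact hc (Subtype.ext h)
        · intro h
          exact absurd (Finset.mem_univ _) h
      have h2 := Matrix.rank_mul_le_right (corner (z.permMatrix ℂ) i j).transpose
        (corner (z.permMatrix ℂ) i j)
      rw [hone, Matrix.rank_one] at h2
      exact (Matrix.rank_le_card_width _).trans h2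

end Pool.Agent.Q277.OG
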